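import Mathlib
import Pool.Agent.Helper540.Cara

set_option autoImplicit false

namespace Pool.Agent.Y912.HL

open Metric Set Filter Topology Pool.Agent.Helper540

variable {E : Type*} [NormedAddCommGroup E] [InnerProductSpace ℂ E] [CompleteSpace E]

/-- Bound for the component of a homogeneous part in a given direction (maps in the Caratheodory
family of a complex Hilbert space). -/
theorem dir_le {h : E → E} (hd : DifferentiableOn ℂ h (ball 0 1)) (h0 : h 0 = 0)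
    (h1 : fderiv ℂ h 0 = ContinuousLinearMap.id ℂ E)
    (hpos : ∀ z ∈ ball (0 : E) 1, 0 ≤ (inner ℂ z (h z)).re) {m : ℕ} (hm : 2 ≤ m) {u w₀ : E}
    (hu : ‖u‖ = 1) (hw₀n : ‖w₀‖ = 1) {x y ρ : ℝ} (hy0 : 0 ≤ y) (hy1 : y ≤ 1)
    (hρ0 : 0 ≤ ρ) (hρ1 : ρ < 1) (e1 : x ^ 2 + y ^ 2 = 1 + ρ ^ 2)
    (e2 : x * y * ‖inner ℂ u w₀‖ = ρ) :
    x * y ^ m * ‖inner ℂ w₀ (tc m (fun t : ℂ => h (t • u)))‖ ≤ 1 + ρ ^ 2 := by
  set P : E := tc m (fun t : ℂ => h (t • u)) with hP
  set a : ℂ := inner ℂ w₀ P with ha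
  rcases eq_or_ne a 0 with ha0 | ha0
  · rw [ha0, norm_zero]
    nlinarith [sq_nonneg ρ]
  have hap : 0 < ‖a‖ := norm_pos_iff.2 ha0
  have hac : (‖a‖ : ℂ) ≠ 0 := by exact_mod_cast hap.ne'
  set κ : ℂ := a / ‖a‖ with hκ
  have hκ1 : ‖κ‖ = 1 := by
    rw [hκ, norm_div, Complex.norm_real, norm_norm, div_self hap.ne']
  set c₀ : ℂ := κ * inner ℂ u w₀ with hc₀
  have hc₀n : ‖c₀‖ = ‖inner ℂ u w₀‖ := by rw [hc₀, norm_mul, hκ1, one_mul]
  -- a phase rotating the inner product to a nonnegative real number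
  obtain ⟨l, hl1, hl⟩ : ∃ l : ℂ, ‖l‖ = 1 ∧ l ^ (m - 1) * c₀ = (‖c₀‖ : ℂ) := by
    rcases eq_or_ne c₀ 0 with h2 | h2
    · exact ⟨1, by simp, by simp [h2]⟩
    · obtain ⟨l, hl⟩ := IsAlgClosed.exists_pow_nat_eq ((‖c₀‖ : ℂ) / c₀) (by omega : 0 < m - 1)
      have h3 : (‖c₀‖ : ℂ) ≠ 0 := by exact_mod_cast (norm_pos_iff.2 h2).ne'
      refine ⟨l, ?_, by rw [hl, div_mul_cancel₀ _ h2]⟩
      have h4 : ‖l‖ ^ (m - 1) = 1 := by
        rw [← norm_pow, hl, norm_div, Complex.norm_real, norm_norm, div_self]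
        exact (norm_pos_iff.2 h2).ne'
      exact (pow_eq_one_iff_of_nonneg (norm_nonneg _) (by omega)).1 h4
  set c : ℝ := ‖c₀‖ with hc
  rw [← hc₀n] at e2
  set u' : E := l • u with hu'
  have hu'n : ‖u'‖ = 1 := by rw [hu', norm_smul, hl1, hu, one_mul]
  set w : E := (l ^ m * κ) • w₀ with hw
  have hwn : ‖w‖ = 1 := by rw [hw, norm_smul, norm_mul, norm_pow, hl1, one_pow, hκ1, hw₀n]; simp
  have hll : (starRingEnd ℂ) l * l = 1 := by
    rw [mul_comm, Complex.mul_conj, Complex.normSq_eq_norm_sq, hl1]; simp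
  have hu'w : inner ℂ u' w = (c : ℂ) := by
    rw [hu', hw, inner_smul_left, inner_smul_right, ← hl, hc₀]
    have : l ^ m = l * l ^ (m - 1) := by rw [← pow_succ']; congr 1; omega
    rw [this]
    calc (starRingEnd ℂ) l * (l * l ^ (m - 1) * κ * inner ℂ u w₀)
        = ((starRingEnd ℂ) l * l) * (l ^ (m - 1) * (κ * inner ℂ u w₀)) := by ring
      _ = _ := by rw [hll, one_mul]
  -- dilations of `h`
  have hr : ∀ r : ℝ, 0 < r → r < 1 → x * y ^ m * (r ^ (m - 1) * ‖a‖) ≤ 1 + ρ ^ 2 := by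
    intro r hr0 hr1
    have hrc : (r : ℂ) ≠ 0 := by exact_mod_cast hr0.ne'
    set g : E → E := fun z => ((r : ℂ)⁻¹) • h ((r : ℂ) • z) with hg
    have hmap : ∀ z ∈ ball (0 : E) (r⁻¹), (r : ℂ) • z ∈ ball (0 : E) 1 := by
      intro z hz
      rw [mem_ball_zero_iff] at *
      rw [norm_smul, Complex.norm_real, Real.norm_of_nonneg hr0.le]
      calc r * ‖z‖ < r * r⁻¹ := by gcongr
        _ = 1 := mul_inv_cancel₀ hr0.ne'
    have hgd : DifferentiableOn ℂ g (ball 0 (r⁻¹)) := by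
      intro z hz
      have h2 : DifferentiableAt ℂ h ((r : ℂ) • z) :=
        hd.differentiableAt (isOpen_ball.mem_nhds (hmap z hz))
      have h3 : DifferentiableAt ℂ (fun z : E => (r : ℂ) • z) z := by fun_prop
      exact ((h2.comp z h3).const_smul ((r : ℂ)⁻¹)).differentiableWithinAt
    have hg0 : g 0 = 0 := by simp [hg, h0]
    have hg1 : fderiv ℂ g 0 = ContinuousLinearMap.id ℂ E := by
      have h2 : HasFDerivAt h (ContinuousLinearMap.id ℂ E) ((r : ℂ) • (0 : E)) := by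
        rw [smul_zero, ← h1]
        exact (hd.differentiableAt (ball_mem_nhds _ one_pos)).hasFDerivAt
      have h3 : HasFDerivAt (fun z : E => (r : ℂ) • z) ((r : ℂ) • ContinuousLinearMap.id ℂ E) 0 :=
        (hasFDerivAt_id (0 : E)).const_smul (r : ℂ)
      have h4 := (h2.comp (0 : E) h3).const_smul ((r : ℂ)⁻¹)
      rw [show g = (r : ℂ)⁻¹ • (h ∘ fun z : E => (r : ℂ) • z) from rfl, h4.fderiv]
      ext z
      simp only [Complex.coe_smul, FunLike.coe_smul, Pi.smul_apply,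
        ContinuousLinearMap.comp_apply, ContinuousLinearMap.id_apply]
      have e6 : (r : ℂ)⁻¹ • (r : ℂ) • z = z := by
        rw [smul_smul, inv_mul_cancel₀ hrc, one_smul]
      simpa using e6
    have hgpos : ∀ z, ‖z‖ ≤ 1 → 0 ≤ (inner ℂ z (g z)).re := by
      intro z hz
      have hzb : z ∈ ball (0 : E) (r⁻¹) := by
        rw [mem_ball_zero_iff]
        exact hz.trans_lt ((one_lt_inv₀ hr0).2 hr1)
      have h2 := hpos _ (hmap z hzb)
      have h3 : inner ℂ z (g z) = ((r⁻¹ * r⁻¹ : ℝ) : ℂ) * inner ℂ ((r : ℂ) • z) (h ((r : ℂ) • z)) := by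
        rw [hg, inner_smul_right, inner_smul_left, Complex.conj_ofReal]
        push_cast
        field_simp
      rw [h3, Complex.re_ofReal_mul]
      positivity
    have key := key_ineq (R₁ := r⁻¹) ((one_lt_inv₀ hr0).2 hr1) hgd hg0 hg1 hgpos hm hu'n hwn hu'w
      hy0 hy1 hρ0 hρ1 e1 e2
    have hs1 : DifferentiableOn ℂ (fun t : ℂ => h (t • u)) (ball 0 1) := by
      intro ζ hζ
      have hζ' : ‖ζ‖ < 1 := by simpa using hζ
      have h2 : ζ • u ∈ ball (0 : E) 1 := by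
        rw [mem_ball_zero_iff, norm_smul, hu, mul_one]
        linarith
      have h3 : DifferentiableAt ℂ (fun ζ : ℂ => ζ • u) ζ := by fun_prop
      exact ((hd.differentiableAt (isOpen_ball.mem_nhds h2)).comp ζ h3).differentiableWithinAt
    have htc : tc m (fun t : ℂ => g (t • u')) = ((r : ℂ)⁻¹ * (r * l) ^ m) • P := by
      have h5 : (fun t : ℂ => g (t • u')) =
          fun t : ℂ => ((r : ℂ)⁻¹) • (fun s : ℂ => h (s • u)) (t • ((r : ℂ) * l)) := by
        ext1 t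
        simp only [hg, hu', smul_smul, smul_eq_mul]
        congr 3
        ring
      have h6 := tc_comp_smul one_pos hs1 m ((r : ℂ) * l)
      have h7 : DifferentiableOn ℂ (fun t : ℂ => (fun s : ℂ => h (s • u)) (t • ((r : ℂ) * l)))
          (ball 0 1) := by
        intro ζ hζ
        have hζ' : ‖ζ‖ < 1 := by simpa using hζ
        have h2 : ζ • ((r : ℂ) * l) ∈ ball (0 : ℂ) 1 := by
          rw [mem_ball_zero_iff, norm_smul, norm_mul, hl1, mul_one, Complex.norm_real,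
            Real.norm_of_nonneg hr0.le]
          nlinarith [norm_nonneg ζ]
        have h3 : DifferentiableAt ℂ (fun ζ : ℂ => ζ • ((r : ℂ) * l)) ζ := by fun_prop
        exact ((hs1.differentiableAt (isOpen_ball.mem_nhds h2)).comp ζ h3).differentiableWithinAt
      have h8 := tc_clm ((r : ℂ)⁻¹ • ContinuousLinearMap.id ℂ E) m (contDiffAt_of_ball one_pos h7 m)
      rw [h5]
      simp only [FunLike.coe_smul, Pi.smul_apply, ContinuousLinearMap.id_apply] at h8
      rw [h8, h6, smul_smul]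
    rw [htc, inner_smul_right] at key
    have hκκ : (starRingEnd ℂ) κ * a = ‖a‖ := by
      rw [hκ, map_div₀, Complex.conj_ofReal, div_mul_eq_mul_div, mul_comm, Complex.mul_conj,
        Complex.normSq_eq_norm_sq]
      push_cast
      field_simp
    have hinner : inner ℂ w P = (starRingEnd ℂ) (l ^ m) * ‖a‖ := by
      rw [hw, inner_smul_left, map_mul, mul_assoc, ← ha, hκκ]
    have h9 : (r : ℂ)⁻¹ * (r * l) ^ m * inner ℂ w P = ((r ^ (m - 1) * ‖a‖ : ℝ) : ℂ) := by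
      rw [hinner, map_pow, mul_pow]
      have h10 : l ^ m * (starRingEnd ℂ) l ^ m = 1 := by
        rw [← mul_pow, mul_comm, hll, one_pow]
      have h11 : (r : ℂ) ^ m = r * r ^ (m - 1) := by rw [← pow_succ']; congr 1; omega
      calc (r : ℂ)⁻¹ * (r ^ m * l ^ m) * ((starRingEnd ℂ) l ^ m * ‖a‖)
          = (r : ℂ)⁻¹ * r ^ m * (l ^ m * (starRingEnd ℂ) l ^ m) * ‖a‖ := by ring
        _ = ((r ^ (m - 1) * ‖a‖ : ℝ) : ℂ) := by
          rw [h10, h11]; push_cast; field_simp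
    rw [h9, Complex.ofReal_re] at key
    exact key
  have hl2 : Tendsto (fun r : ℝ => x * y ^ m * (r ^ (m - 1) * ‖a‖)) (𝓝[<] 1)
      (𝓝 (x * y ^ m * ((1 : ℝ) ^ (m - 1) * ‖a‖))) := by
    apply Tendsto.mono_left _ nhdsWithin_le_nhds
    apply Continuous.tendsto
    fun_prop
  rw [one_pow, one_mul] at hl2
  refine le_of_tendsto hl2 ?_
  filter_upwards [Ioo_mem_nhdsLT (zero_lt_one (α := ℝ))] with r hr'
  exact hr r hr'.1 hr'.2

/-- The bound for the second order term: at the angle with `|⟨u, w⟩|² = (3X - 1)/(X² (3 - X))`,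
`1/3 ≤ X ≤ 1`, the component in the direction `w` is at most `4 / (√X (3 - X))`. -/
theorem dir_two {h : E → E} (hd : DifferentiableOn ℂ h (ball 0 1)) (h0 : h 0 = 0)
    (h1 : fderiv ℂ h 0 = ContinuousLinearMap.id ℂ E)
    (hpos : ∀ z ∈ ball (0 : E) 1, 0 ≤ (inner ℂ z (h z)).re) {u w : E}
    (hu : ‖u‖ = 1) (hw : ‖w‖ = 1) {X : ℝ} (hX : X ∈ Icc (1 / 3 : ℝ) 1)
    (hc : ‖inner ℂ u w‖ ^ 2 * (X ^ 2 * (3 - X)) = 3 * X - 1) :
    ‖inner ℂ w (tc 2 (fun t : ℂ => h (t • u)))‖ ≤ 4 / (Real.sqrt X * (3 - X)) := by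
  obtain ⟨hX3, hX1⟩ := hX
  have hX0 : 0 < X := by linarith
  set c : ℝ := ‖inner ℂ u w‖ with hcd
  have hc0 : 0 ≤ c := norm_nonneg _
  set N : ℝ := ‖inner ℂ w (tc 2 (fun t : ℂ => h (t • u)))‖ with hN
  have hN0 : 0 ≤ N := norm_nonneg _
  rcases hX1.eq_or_lt with hX1 | hX1
  · -- the direction of `u` itself
    subst hX1
    have hc1 : c = 1 := by
      have : c ^ 2 = 1 := by linarith
      nlinarith
    have hb : ∀ x : ℝ, 0 < x → x < 1 → x * N ≤ 1 + x ^ 2 := by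
      intro x hx0 hx1
      have := dir_le hd h0 h1 hpos (le_refl 2) hu hw (x := x) (y := 1) (ρ := x) zero_le_one le_rfl
        hx0.le hx1 (by ring) (by rw [← hcd, hc1]; ring)
      simpa using this
    have hl2 : Tendsto (fun x : ℝ => x * N - (1 + x ^ 2)) (𝓝[<] 1)
        (𝓝 ((1 : ℝ) * N - (1 + 1 ^ 2))) := by
      apply Tendsto.mono_left _ nhdsWithin_le_nhds
      apply Continuous.tendsto (f := fun x : ℝ => x * N - (1 + x ^ 2))
      fun_prop
    have h3 : (1 : ℝ) * N - (1 + 1 ^ 2) ≤ 0 := by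
      refine le_of_tendsto hl2 ?_
      filter_upwards [Ioo_mem_nhdsLT (zero_lt_one (α := ℝ))] with r hr'
      linarith [hb r hr'.1 hr'.2]
    rw [Real.sqrt_one]
    norm_num
    linarith
  · set Y : ℝ := X * (3 - X) / (1 + X) with hY
    have h1X : 0 < 1 + X := by linarith
    have h3X : 0 < 3 - X := by linarith
    have hY0 : 0 < Y := by positivity
    have hY1 : Y ≤ 1 := by
      rw [hY, div_le_one h1X]
      nlinarith [sq_nonneg (1 - X)]
    set x : ℝ := Real.sqrt X with hx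
    set y : ℝ := Real.sqrt Y with hy
    have hx2 : x ^ 2 = X := Real.sq_sqrt hX0.le
    have hy2 : y ^ 2 = Y := Real.sq_sqrt hY0.le
    have hx0 : 0 < x := Real.sqrt_pos.2 hX0
    have hy0 : 0 < y := Real.sqrt_pos.2 hY0
    have hy1 : y ≤ 1 := by
      rw [hy, Real.sqrt_le_one]; exact hY1
    set ρ : ℝ := x * y * c with hρ
    have hρ0 : 0 ≤ ρ := by positivity
    have hρ2 : ρ ^ 2 = (3 * X - 1) / (1 + X) := by
      rw [hρ, mul_pow, mul_pow, hx2, hy2, hY, eq_div_iff h1X.ne']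
      rw [← hc]
      field_simp
    have hρ1 : ρ < 1 := by
      have h5 : ρ ^ 2 < 1 := by
        rw [hρ2, div_lt_one h1X]
        linarith
      nlinarith
    have hXY : X + Y = 4 * X / (1 + X) := by
      rw [hY]; field_simp; ring
    have hρ3 : 1 + ρ ^ 2 = 4 * X / (1 + X) := by
      rw [hρ2]; field_simp; ring
    have e1 : x ^ 2 + y ^ 2 = 1 + ρ ^ 2 := by rw [hx2, hy2, hXY, hρ3]
    have key := dir_le hd h0 h1 hpos (le_refl 2) hu hw hy0.le hy1 hρ0 hρ1 e1 rfl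
    rw [hy2, ← hN, hρ3] at key
    rw [le_div_iff₀ (by positivity)]
    have h6 : x * Y * N * (1 + X) ≤ 4 * X := by
      rwa [le_div_iff₀ h1X] at key
    have h7 : x * Y * N * (1 + X) = X * (N * (x * (3 - X))) := by
      rw [hY]; field_simp
    rw [h7] at h6
    have h8 : X * (N * (x * (3 - X))) ≤ X * 4 := by linarith
    exact le_of_mul_le_mul_left h8 hX0

end Pool.Agent.Y912.HL
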